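import Pool.Agent.Lib.MP_35885f_cs.Stat

/-!
# Row CHN: a chain of differences of consecutive vectors
-/

namespace Pool.MP_35885f.CS

open scoped Classical

theorem cnt_cons {V : Type} (e : Sym2 V) (g : Sym2 V → ZMod 2) (L : List (Sym2 V → ZMod 2)) :
    cnt e (g :: L) = cnt e L + if g e ≠ 0 then 1 else 0 := by
  unfold cnt
  rw [List.countP_cons]
  simp only [decide_eq_true_eq]

theorem ind_add {a b : ZMod 2} :
    (if a + b ≠ 0 then 1 else 0 : ℕ) ≤ (if a ≠ 0 then 1 else 0) + if b ≠ 0 then 1 else 0 := by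
  by_cases ha : a = 0
  · subst ha
    simp
  · have : (if a ≠ 0 then 1 else 0 : ℕ) = 1 := if_pos ha
    rw [this]
    split_ifs <;> omega

theorem chn_aux {V : Type} (s : Sym2 V → ZMod 2) (L : List (Sym2 V → ZMod 2)) :
    ∀ g : Sym2 V → ZMod 2, ∃ Γ : List (Sym2 V → ZMod 2),
      (∀ x ∈ g :: L, x + s ∈ Submodule.span (ZMod 2) {γ | γ ∈ Γ}) ∧
      (∀ γ ∈ Γ, ∃ x ∈ g :: L, γ = x + s ∨ ∃ g' ∈ g :: L, γ = x + g') ∧
      ∀ e, cnt e Γ + (if g e ≠ 0 then 1 else 0) ≤
        2 * cnt e (g :: L) + if s e ≠ 0 then 1 else 0 := by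
  induction L with
  | nil =>
    intro g
    refine ⟨[g + s], ?_, ?_, fun e => ?_⟩
    · intro x hx
      rw [List.mem_singleton] at hx
      subst hx
      exact Submodule.subset_span (List.mem_singleton_self _)
    · intro γ hγ
      rw [List.mem_singleton] at hγ
      exact ⟨g, List.mem_singleton_self _, Or.inl hγ⟩
    · rw [cnt_cons, cnt_cons]
      have h0 : cnt e ([] : List (Sym2 V → ZMod 2)) = 0 := rfl
      have h1 := ind_add (a := g e) (b := s e)
      rw [h0, Pi.add_apply]
      omega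
  | cons g2 L ih =>
    intro g
    obtain ⟨Γ, h1, h2, h3⟩ := ih g2
    have hsub : ({γ | γ ∈ Γ} : Set (Sym2 V → ZMod 2)) ⊆ {γ | γ ∈ (g + g2) :: Γ} :=
      fun γ hγ => List.mem_cons_of_mem _ hγ
    refine ⟨(g + g2) :: Γ, ?_, ?_, fun e => ?_⟩
    · intro x hx
      rcases List.mem_cons.1 hx with rfl | hx
      · have h4 := Submodule.span_mono (R := ZMod 2) hsub (h1 g2 List.mem_cons_self)
        have h5 : x + g2 ∈ Submodule.span (ZMod 2) {γ | γ ∈ (x + g2) :: Γ} :=
          Submodule.subset_span (by simp)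
        have h6 := Submodule.add_mem _ h5 h4
        have h7 : x + g2 + (g2 + s) = x + s := by
          ext e
          simp only [Pi.add_apply]
          have := CharTwo.add_self_eq_zero (g2 e)
          linear_combination this
        rw [h7] at h6
        exact h6
      · exact Submodule.span_mono (R := ZMod 2) hsub (h1 x hx)
    · intro γ hγ
      rcases List.mem_cons.1 hγ with rfl | hγ
      · exact ⟨g, by simp, Or.inr ⟨g2, by simp, rfl⟩⟩
      · obtain ⟨x, hx, h4⟩ := h2 γ hγ
        refine ⟨x, List.mem_cons_of_mem _ hx, ?_⟩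
        rcases h4 with h4 | ⟨g', hg', h4⟩
        · exact Or.inl h4
        · exact Or.inr ⟨g', List.mem_cons_of_mem _ hg', h4⟩
    · have h4 := h3 e
      have h5 := ind_add (a := g e) (b := g2 e)
      rw [cnt_cons e g, cnt_cons e (g + g2), Pi.add_apply]
      omega

/-- **Row CHN**. -/
theorem chn : CHN := by
  intro V L s
  cases L with
  | nil => exact ⟨[], by simp, by simp, fun e => by simp [cnt]⟩
  | cons g L =>
    obtain ⟨Γ, h1, h2, h3⟩ := chn_aux s L g
    exact ⟨Γ, h1, h2, fun e => le_trans (Nat.le_add_right _ _) (h3 e)⟩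

end Pool.MP_35885f.CS
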