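import Pool.Agent.Lib.MP_35885f_cs.KEY
import Pool.Agent.Lib.MP_35885f_cs.EAR
import Pool.Agent.Lib.MP_35885f_cs.CHN
import Pool.Agent.Lib.MP_35885f_cs.TDF

/-!
# Clique separators and the basis number: assembly
-/

open Finset

namespace Pool.MP_35885f.CS

open scoped Classical

/-- Any two distinct common vertices of the bags of two adjacent nodes are adjacent in `G`. -/
def CliqueAdhesions {V : Type} {G : SimpleGraph V} (D : TreeDecomp G) : Prop :=
  ∀ x y, D.T.Adj x y → ∀ u v, u ∈ D.bag x → u ∈ D.bag y → v ∈ D.bag x → v ∈ D.bag y → u ≠ v →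
    G.Adj u v

lemma exists_cycleBasis {V : Type} [Fintype V] (G : SimpleGraph V) :
    ∃ B : Finset (Sym2 V → ZMod 2), IsCycleBasis G B := by
  obtain ⟨b, hb1, hb2, hb3⟩ :=
    exists_linearIndependent (ZMod 2) (cycleSpace G : Set (Sym2 V → ZMod 2))
  have hfin : b.Finite := Set.toFinite b
  have hcoe : (hfin.toFinset : Set (Sym2 V → ZMod 2)) = b := hfin.coe_toFinset
  refine ⟨hfin.toFinset, ?_, ?_⟩
  · have h1 : ∀ x, x ∈ hfin.toFinset ↔ x ∈ b := fun x => hfin.mem_toFinset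
    exact hb3.comp (fun x : hfin.toFinset => (⟨x.1, (h1 x.1).1 x.2⟩ : b)) (by
      intro x y h
      simp only [Subtype.mk.injEq] at h
      exact Subtype.ext h)
  · rw [hcoe, hb2, Submodule.span_eq]

lemma exists_basis_ply {V : Type} [Fintype V] (G : SimpleGraph V) :
    ∃ B : Finset (Sym2 V → ZMod 2), IsCycleBasis G B ∧
      ∀ e ∈ G.edgeSet, ply e B ≤ basisNumber G := by
  obtain ⟨B, hB⟩ := exists_cycleBasis G
  have hne : {m | ∃ B : Finset (Sym2 V → ZMod 2), IsCycleBasis G B ∧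
      ∀ e ∈ G.edgeSet, ply e B ≤ m}.Nonempty :=
    ⟨B.card, B, hB, fun e _ => Finset.card_filter_le _ _⟩
  exact Nat.sInf_mem hne

theorem cliqueAdhesions_le {V : Type} [Fintype V] (G : SimpleGraph V) (D : TreeDecomp G) (b : ℕ)
    (hD : CliqueAdhesions D) (hb : ∀ x, basisNumber (piece G {v | v ∈ D.bag x}) ≤ b) :
    basisNumber G ≤ 2 * b + 1 := by
  obtain ⟨F, hF⟩ := tdf V G D hD
  have h1 : ∀ x, ∃ B : Finset (Sym2 V → ZMod 2), IsCycleBasis (piece G (F.bag x)) B ∧
      ∀ e ∈ (piece G (F.bag x)).edgeSet, ply e B ≤ b := by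
    intro x
    obtain ⟨y, hy⟩ := hF x
    obtain ⟨B, hB1, hB2⟩ := exists_basis_ply (piece G (F.bag x))
    refine ⟨B, hB1, fun e he => (hB2 e he).trans ?_⟩
    rw [hy]
    exact hb y
  choose B hB1 hB2 using h1
  refine key ear chn V G F b B (fun x f hf => ?_) (fun x => ?_) fun x e he => ?_
  · rw [← (hB1 x).2]
    exact Submodule.subset_span hf
  · rw [(hB1 x).2]
    exact le_sup_left
  · refine hB2 x e ?_
    obtain ⟨h2, h3, -⟩ := he
    induction e using Sym2.ind with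
    | _ u v => exact ⟨h2, h3 u (Sym2.mem_mk_left _ _), h3 v (Sym2.mem_mk_right _ _)⟩

end Pool.MP_35885f.CS
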