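import Pool.Agent.Lib.MP_35885f_co.Defs

/-!
# Basis number and pathwidth: `bn(G) ≤ pw(G) + 1`
-/

open Finset

namespace Pool.MP_35885f.CS

/-- A path decomposition of `G`: a sequence of bags such that the bags containing a given vertex
form a nonempty interval and the two ends of every edge lie in a common bag. -/
structure PathDecomp {V : Type} (G : SimpleGraph V) where
  n : ℕ
  bag : Fin n → Finset V
  cover : ∀ v, ∃ x, v ∈ bag x
  conv : ∀ v x y z, x ≤ y → y ≤ z → v ∈ bag x → v ∈ bag z → v ∈ bag y
  edge : ∀ u v, G.Adj u v → ∃ x, u ∈ bag x ∧ v ∈ bag x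

/-- The pathwidth of `G`: the least `k` such that `G` has a path decomposition all of whose bags
have at most `k + 1` vertices. -/
noncomputable def pathwidth {V : Type} (G : SimpleGraph V) : ℕ :=
  sInf {k | ∃ D : PathDecomp G, ∀ x, (D.bag x).card ≤ k + 1}

open scoped Classical

variable {V : Type} [Fintype V]

/-- last edge of a vector with respect to a numbering -/
noncomputable def lst (o : Sym2 V → ℕ) (f : Sym2 V → ZMod 2) : ℕ :=
  (univ.filter fun e => f e ≠ 0).sup o

/-- vectors vanishing on the edges with number `< p` -/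
def Low (o : Sym2 V → ℕ) (p : ℕ) (f : Sym2 V → ZMod 2) : Prop := ∀ e, f e ≠ 0 → p ≤ o e

lemma le_lst {o : Sym2 V → ℕ} {f : Sym2 V → ZMod 2} {e : Sym2 V} (h : f e ≠ 0) :
    o e ≤ lst o f :=
  Finset.le_sup (f := o) (by simpa using h)

lemma exists_lst {o : Sym2 V → ℕ} {f : Sym2 V → ZMod 2} (h : f ≠ 0) :
    ∃ e, f e ≠ 0 ∧ o e = lst o f := by
  obtain ⟨e₀, he₀⟩ : ∃ e, f e ≠ 0 := by
    by_contra hc
    push Not at hc
    exact h (funext hc)
  have hne : (univ.filter fun e => f e ≠ 0).Nonempty := ⟨e₀, by simpa using he₀⟩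
  obtain ⟨e, he, heq⟩ := Finset.exists_mem_eq_sup _ hne o
  exact ⟨e, by simpa using he, heq.symm⟩

/-- the prefix part of a vector -/
noncomputable def pre (o : Sym2 V → ℕ) (p : ℕ) (f : Sym2 V → ZMod 2) : Sym2 V → ZMod 2 :=
  fun e => if o e < p then f e else 0

/-- the degree (mod 2) of a vector at a vertex -/
noncomputable def bd (f : Sym2 V → ZMod 2) (v : V) : ZMod 2 := ∑ w, f s(v, w)

lemma bd_add (f g : Sym2 V → ZMod 2) (v : V) : bd (f + g) v = bd f v + bd g v := by
  simp [bd, Finset.sum_add_distrib]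

/-- the sum of all degrees is zero if the vector vanishes on the diagonal -/
lemma sum_bd {f : Sym2 V → ZMod 2} (hf : ∀ v, f s(v, v) = 0) : ∑ v, bd f v = 0 := by
  unfold bd
  rw [← Finset.sum_product']
  refine Finset.sum_involution (fun x _ => (x.2, x.1)) ?_ ?_ ?_ ?_
  · intro x _
    rw [Sym2.eq_swap]
    exact CharTwo.add_self_eq_zero _
  · intro x _ hx heq
    have h1 : x.2 = x.1 := congrArg Prod.fst heq
    apply hx
    rw [h1]
    exact hf _
  · intro x _
    simp
  · intro x _
    rfl

lemma mem_cycleSpace {G : SimpleGraph V} {f : Sym2 V → ZMod 2} :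
    f ∈ cycleSpace G ↔ (∀ e, e ∉ G.edgeSet → f e = 0) ∧ ∀ v, bd f v = 0 := Iff.rfl

/-- first edge, as an element of `WithTop ℕ` -/
noncomputable def st (o : Sym2 V → ℕ) (f : Sym2 V → ZMod 2) : WithTop ℕ :=
  (univ.filter fun e => f e ≠ 0).inf fun e => (o e : WithTop ℕ)

lemma low_iff {o : Sym2 V → ℕ} {f : Sym2 V → ZMod 2} {p : ℕ} :
    Low o p f ↔ (p : WithTop ℕ) ≤ st o f := by
  unfold Low st
  rw [Finset.le_inf_iff]
  simp

lemma lst_sum {o : Sym2 V → ℕ} {S : Finset (Sym2 V → ZMod 2)}
    (h0 : ∀ f ∈ S, f ≠ 0) (hinj : Set.InjOn (lst o) (S : Set (Sym2 V → ZMod 2)))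
    {c : (Sym2 V → ZMod 2) → ZMod 2} (hc : ∃ f ∈ S, c f ≠ 0) :
    ∃ f ∈ S, c f ≠ 0 ∧ (∑ g ∈ S, c g • g) ≠ 0 ∧ lst o (∑ g ∈ S, c g • g) = lst o f := by
  obtain ⟨f₀, hf₀, hcf₀⟩ := hc
  obtain ⟨f, hf, hmax⟩ := Finset.exists_max_image (S.filter fun g => c g ≠ 0) (lst o)
    ⟨f₀, by simp [hf₀, hcf₀]⟩
  rw [Finset.mem_filter] at hf
  obtain ⟨e, he, hoe⟩ := exists_lst (o := o) (h0 f hf.1)
  have hsum : (∑ g ∈ S, c g • g) e = c f * f e := by
    rw [Finset.sum_apply]
    rw [Finset.sum_eq_single f]
    · simp
    · intro g hg hne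
      rw [Pi.smul_apply, smul_eq_mul]
      by_contra hcon
      have h1 : c g ≠ 0 := left_ne_zero_of_mul hcon
      have h2 : g e ≠ 0 := right_ne_zero_of_mul hcon
      have h3 := hmax g (by simp [hg, h1])
      have h4 := le_lst (o := o) h2
      have h5 : lst o g = lst o f := le_antisymm h3 (by rw [← hoe]; exact h4)
      exact hne (hinj hg hf.1 h5)
    · intro h; exact absurd hf.1 h
  have hne : (∑ g ∈ S, c g • g) e ≠ 0 := by
    rw [hsum]; exact mul_ne_zero hf.2 he
  refine ⟨f, hf.1, hf.2, ?_, le_antisymm ?_ ?_⟩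
  · intro h
    rw [h] at hne
    exact hne rfl
  · unfold lst
    refine Finset.sup_le fun e' he' => ?_
    rw [Finset.mem_filter, Finset.sum_apply] at he'
    obtain ⟨g, hg, hg2⟩ := Finset.exists_ne_zero_of_sum_ne_zero he'.2
    rw [Pi.smul_apply, smul_eq_mul] at hg2
    have h1 : c g ≠ 0 := left_ne_zero_of_mul hg2
    have h2 : g e' ≠ 0 := right_ne_zero_of_mul hg2
    exact (le_lst (o := o) h2).trans (hmax g (by simp [hg, h1]))
  · rw [← hoe]
    exact le_lst hne

lemma zmod2_eq {a b : ZMod 2} (ha : a ≠ 0) (hb : b ≠ 0) : a = b := by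
  revert a b; decide

/-- The count: if for every edge `e` at most `k + 1` vertices are incident both with edges before
`e` and with edges from `e` on, then the basis number is at most `k + 1`. -/
theorem basisNumber_le_of_order (G : SimpleGraph V) (o : Sym2 V → ℕ) (ho : Function.Injective o)
    (k : ℕ)
    (hA : ∀ e ∈ G.edgeSet, ∃ A : Finset V, A.card ≤ k ∧ A.Nonempty ∧
      ∀ v, (∃ w, G.Adj v w ∧ o s(v, w) < o e) → (∃ w, G.Adj v w ∧ o e ≤ o s(v, w)) → v ∈ A) :
    basisNumber G ≤ k := by
  set N : Finset (Sym2 V → ZMod 2) := univ.filter fun f => f ∈ cycleSpace G ∧ f ≠ 0 with hN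
  have hmemN : ∀ f, f ∈ N ↔ f ∈ cycleSpace G ∧ f ≠ 0 := by intro f; simp [hN]
  have hz : ∀ j ∈ N.image (lst o), ∃ z, z ∈ N ∧ lst o z = j ∧
      ∀ g ∈ N, lst o g = j → st o g ≤ st o z := by
    intro j hj
    obtain ⟨f, hf, hfj⟩ := Finset.mem_image.1 hj
    obtain ⟨z, hz, hmax⟩ := Finset.exists_max_image (N.filter fun g => lst o g = j) (st o)
      ⟨f, by simp [hf, hfj]⟩
    rw [Finset.mem_filter] at hz
    exact ⟨z, hz.1, hz.2, fun g hg hgj => hmax g (by simp [hg, hgj])⟩
  choose! z hz1 hz2 hz3 using hz
  set B : Finset (Sym2 V → ZMod 2) := (N.image (lst o)).image z with hB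
  have hBmem : ∀ f ∈ B, f ∈ N ∧ (∀ g ∈ N, lst o g = lst o f → st o g ≤ st o f) := by
    intro f hf
    obtain ⟨j, hj, rfl⟩ := Finset.mem_image.1 hf
    exact ⟨hz1 j hj, fun g hg hgj => hz3 j hj g hg (hgj.trans (hz2 j hj))⟩
  have hBinj : Set.InjOn (lst o) (B : Set (Sym2 V → ZMod 2)) := by
    intro f hf g hg hfg
    obtain ⟨i, hi, rfl⟩ := Finset.mem_image.1 (Finset.mem_coe.1 hf)
    obtain ⟨j, hj, rfl⟩ := Finset.mem_image.1 (Finset.mem_coe.1 hg)
    rw [hz2 i hi, hz2 j hj] at hfg
    rw [hfg]
  have hBne : ∀ f ∈ B, f ≠ 0 := fun f hf => ((hmemN f).1 (hBmem f hf).1).2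
  have hBC : ∀ f ∈ B, f ∈ cycleSpace G := fun f hf => ((hmemN f).1 (hBmem f hf).1).1
  -- linear independence from distinct last edges
  have hind : ∀ S : Finset (Sym2 V → ZMod 2), S ⊆ B → ∀ g : S → ZMod 2, (∃ i, g i ≠ 0) →
      ∃ f ∈ S, (∑ i : S, g i • (i : Sym2 V → ZMod 2)) ≠ 0 ∧
        lst o (∑ i : S, g i • (i : Sym2 V → ZMod 2)) = lst o f := by
    intro S hS g hg
    obtain ⟨⟨i, hi⟩, hgi⟩ := hg
    let c : (Sym2 V → ZMod 2) → ZMod 2 := fun f => if h : f ∈ S then g ⟨f, h⟩ else 0
    have hc : ∀ i : S, c i = g i := by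
      intro i; simp only [c]; rw [dif_pos i.2]
    have hs : (∑ i : S, g i • (i : Sym2 V → ZMod 2)) = ∑ f ∈ S, c f • f := by
      rw [← Finset.sum_coe_sort S (fun f => c f • f)]
      exact Finset.sum_congr rfl fun i _ => by rw [hc i]
    rw [hs]
    obtain ⟨f, hf, _, h1, h2⟩ := lst_sum (o := o) (S := S) (c := c) (fun f hf => hBne f (hS hf))
      (hBinj.mono (by exact_mod_cast hS)) ⟨i, hi, by rw [hc ⟨i, hi⟩]; exact hgi⟩
    exact ⟨f, hf, h1, h2⟩
  refine Nat.sInf_le ⟨B, ⟨?_, ?_⟩, ?_⟩
  · rw [Fintype.linearIndependent_iff]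
    intro g hg
    by_contra hc
    push Not at hc
    obtain ⟨f, _, h1, _⟩ := hind B (Finset.Subset.refl _) g hc
    exact h1 hg
  · refine le_antisymm (Submodule.span_le.2 fun f hf => hBC f (Finset.mem_coe.1 hf)) ?_
    intro f hf
    induction hn : lst o f using Nat.strong_induction_on generalizing f with
    | _ n ih =>
      by_cases hf0 : f = 0
      · rw [hf0]; exact Submodule.zero_mem _
      have hfN : f ∈ N := (hmemN f).2 ⟨hf, hf0⟩
      have hj : lst o f ∈ N.image (lst o) := Finset.mem_image_of_mem _ hfN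
      set y := z (lst o f) with hy
      have hyB : y ∈ B := Finset.mem_image_of_mem _ hj
      have hyl : lst o y = lst o f := hz2 _ hj
      have hfy : f = (f - y) + y := by abel
      rw [hfy]
      refine Submodule.add_mem _ ?_ (Submodule.subset_span hyB)
      by_cases hd : f - y = 0
      · rw [hd]; exact Submodule.zero_mem _
      refine ih (lst o (f - y)) ?_ (Submodule.sub_mem _ hf (hBC y hyB)) rfl
      obtain ⟨e, he, hoe⟩ := exists_lst (o := o) hd
      rw [← hoe]
      have h1 : o e ≤ n := by
        by_cases h : f e = 0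
        · have h2 : y e ≠ 0 := by
            intro h3
            apply he
            rw [Pi.sub_apply, h, h3, sub_zero]
          have := le_lst (o := o) h2
          omega
        · have := le_lst (o := o) h
          omega
      refine lt_of_le_of_ne h1 fun h => ?_
      obtain ⟨a, ha, hoa⟩ := exists_lst (o := o) hf0
      obtain ⟨b, hb, hob⟩ := exists_lst (o := o) (hBne y hyB)
      have hae : a = e := ho (by omega)
      have hbe : b = e := ho (by omega)
      subst hae
      subst hbe
      apply he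
      rw [Pi.sub_apply, zmod2_eq ha hb, sub_self]
  · intro e he
    obtain ⟨A, hAk, ⟨a₀, ha₀⟩, hAv⟩ := hA e he
    set p := o e with hp
    set S := B.filter fun x => x e ≠ 0 with hS
    have hply : ply e B = S.card := by
      unfold ply
      congr
    rw [hply]
    -- the linear map
    let Φ : (Sym2 V → ZMod 2) →ₗ[ZMod 2] (({v // v ∈ A.erase a₀} → ZMod 2) × ZMod 2) :=
      { toFun := fun f => (fun v => bd (pre o p f) v, f e)
        map_add' := by
          intro f g
          ext v
          · simp only [Prod.fst_add, Pi.add_apply]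
            rw [← bd_add]
            congr 1
            ext e'
            simp only [pre, Pi.add_apply]
            split_ifs <;> simp
          · rfl
        map_smul' := by
          intro c f
          ext v
          · simp only [Prod.smul_fst, Pi.smul_apply, RingHom.id_apply, smul_eq_mul, bd,
              Finset.mul_sum]
            refine Finset.sum_congr rfl fun w _ => ?_
            simp only [pre, Pi.smul_apply, smul_eq_mul]
            split_ifs <;> simp
          · rfl }
    have hli : LinearIndependent (ZMod 2) (fun x : S => Φ (x : Sym2 V → ZMod 2)) := by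
      rw [Fintype.linearIndependent_iff]
      intro g hg
      by_contra hc
      push Not at hc
      obtain ⟨f, hfS, hZ0, hZl⟩ := hind S (Finset.filter_subset _ _) g hc
      set Z := ∑ i : S, g i • (i : Sym2 V → ZMod 2) with hZ
      have hΦ : Φ Z = 0 := by
        rw [hZ, map_sum]
        simpa only [map_smul] using hg
      have hZC : Z ∈ cycleSpace G := by
        rw [hZ]
        exact Submodule.sum_mem _ fun i _ =>
          Submodule.smul_mem _ _ (hBC _ (Finset.mem_filter.1 i.2).1)
      have hZe : Z e = 0 := congrArg Prod.snd hΦ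
      have hZA : ∀ v ∈ A.erase a₀, bd (pre o p Z) v = 0 := by
        intro v hv
        have := congrFun (congrArg Prod.fst hΦ) ⟨v, hv⟩
        exact this
      rw [mem_cycleSpace] at hZC
      have hoff : ∀ v, v ∉ A → bd (pre o p Z) v = 0 := by
        intro v hv
        by_cases h1 : ∃ w, G.Adj v w ∧ o s(v, w) < p
        · have h2 : ¬ ∃ w, G.Adj v w ∧ p ≤ o s(v, w) := fun h2 => hv (hAv v h1 h2)
          rw [← hZC.2 v]
          unfold bd
          refine Finset.sum_congr rfl fun w _ => ?_
          unfold pre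
          split_ifs with h3
          · rfl
          · symm
            by_contra h4
            apply h2
            refine ⟨w, ?_, not_lt.1 h3⟩
            by_contra h5
            exact h4 (hZC.1 _ (by rwa [SimpleGraph.mem_edgeSet]))
        · unfold bd
          refine Finset.sum_eq_zero fun w _ => ?_
          unfold pre
          split_ifs with h3
          · by_contra h4
            apply h1
            refine ⟨w, ?_, h3⟩
            by_contra h5
            exact h4 (hZC.1 _ (by rwa [SimpleGraph.mem_edgeSet]))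
          · rfl
      have hbd : ∀ v, bd (pre o p Z) v = 0 := by
        have hne : ∀ v, v ≠ a₀ → bd (pre o p Z) v = 0 := by
          intro v hv
          by_cases hvA : v ∈ A
          · exact hZA v (Finset.mem_erase.2 ⟨hv, hvA⟩)
          · exact hoff v hvA
        intro v
        by_cases hv : v = a₀
        · subst hv
          have hsum := sum_bd (f := pre o p Z) (by
            intro u
            unfold pre
            split_ifs
            · exact hZC.1 _ (by simp)
            · rfl)
          rwa [Finset.sum_eq_single v (fun u _ hu => hne u hu) (fun h => absurd (mem_univ v) h)]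
            at hsum
        · exact hne v hv
      have hXC : pre o p Z ∈ cycleSpace G := by
        rw [mem_cycleSpace]
        refine ⟨fun e' he' => ?_, hbd⟩
        unfold pre
        split_ifs
        · exact hZC.1 e' he'
        · rfl
      have hYC : Z - pre o p Z ∈ cycleSpace G :=
        Submodule.sub_mem _ (mem_cycleSpace.2 hZC) hXC
      have hYv : ∀ e', (Z - pre o p Z) e' = if o e' < p then 0 else Z e' := by
        intro e'
        rw [Pi.sub_apply]
        unfold pre
        split_ifs <;> simp
      have hfB : f ∈ B := (Finset.mem_filter.1 hfS).1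
      have hfe : f e ≠ 0 := (Finset.mem_filter.1 hfS).2
      have hpj : p ≤ lst o Z := by rw [hZl]; exact le_lst hfe
      obtain ⟨e₁, he₁, hoe₁⟩ := exists_lst (o := o) hZ0
      have hpj' : p < lst o Z := by
        refine lt_of_le_of_ne hpj fun h => ?_
        have : e₁ = e := ho (by omega)
        rw [this] at he₁
        exact he₁ hZe
      have hYe₁ : (Z - pre o p Z) e₁ ≠ 0 := by
        rw [hYv, if_neg (by omega)]
        exact he₁
      have hYl : lst o (Z - pre o p Z) = lst o f := by
        rw [← hZl]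
        refine le_antisymm ?_ ?_
        · unfold lst
          refine Finset.sup_mono fun e' he' => ?_
          rw [Finset.mem_filter] at he' ⊢
          refine ⟨he'.1, fun h => he'.2 ?_⟩
          rw [hYv]
          split_ifs
          · rfl
          · exact h
        · rw [← hoe₁]
          exact le_lst hYe₁
      have hYN : Z - pre o p Z ∈ N := by
        rw [hmemN]
        refine ⟨hYC, fun h => hYe₁ ?_⟩
        rw [h]; rfl
      have hlow : Low o (p + 1) (Z - pre o p Z) := by
        intro e' he'
        rw [hYv] at he'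
        split_ifs at he' with h1
        · exact absurd rfl he'
        · rcases Nat.lt_or_ge p (o e') with h2 | h2
          · exact h2
          · exfalso
            have : e' = e := ho (by omega)
            rw [this] at he'
            exact he' hZe
      have hle := (hBmem f hfB).2 _ hYN hYl
      have hlowf : Low o (p + 1) f := low_iff.2 ((low_iff.1 hlow).trans hle)
      have := hlowf e hfe
      omega
    have hcard := hli.fintype_card_le_finrank
    rw [Module.finrank_prod, Module.finrank_fintype_fun_eq_card, Module.finrank_self,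
      Fintype.card_coe, Fintype.card_coe, Finset.card_erase_of_mem ha₀] at hcard
    have hpos : 0 < A.card := Finset.card_pos.2 ⟨a₀, ha₀⟩
    omega

/-- Every finite graph has a path decomposition. -/
lemma exists_pathDecomp (G : SimpleGraph V) :
    ∃ k, ∃ D : PathDecomp G, ∀ x, (D.bag x).card ≤ k + 1 :=
  ⟨Fintype.card V, ⟨1, fun _ => univ, fun _ => ⟨0, mem_univ _⟩, fun _ _ _ _ _ _ _ _ => mem_univ _,
    fun _ _ _ => ⟨0, mem_univ _, mem_univ _⟩⟩, fun _ => (card_le_univ _).trans (Nat.le_succ _)⟩

/-- The basis number is at most the pathwidth plus one. -/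
theorem basisNumber_le_pathwidth (G : SimpleGraph V) : basisNumber G ≤ pathwidth G + 1 := by
  obtain ⟨D, hD⟩ : pathwidth G ∈ {k | ∃ D : PathDecomp G, ∀ x, (D.bag x).card ≤ k + 1} :=
    Nat.sInf_mem (exists_pathDecomp G)
  -- index of the first bag containing both ends of an edge
  let P : Sym2 V → ℕ → Prop := fun e i => ∃ h : i < D.n, ∀ v ∈ e, v ∈ D.bag ⟨i, h⟩
  let fb : Sym2 V → ℕ := fun e => sInf {i | P e i}
  have hfb : ∀ e ∈ G.edgeSet, P e (fb e) := by
    intro e he
    have hne : {i | P e i}.Nonempty := by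
      induction e using Sym2.ind with
      | _ u v =>
        obtain ⟨x, hu, hv⟩ := D.edge u v (by simpa using he)
        refine ⟨x.1, x.2, ?_⟩
        intro w hw
        rcases Sym2.mem_iff.1 hw with rfl | rfl
        · exact hu
        · exact hv
    exact Nat.sInf_mem hne
  let num : Sym2 V ≃ Fin (Fintype.card (Sym2 V)) := Fintype.equivFin _
  set M := Fintype.card (Sym2 V) with hM
  let o : Sym2 V → ℕ := fun e => fb e * M + (num e : ℕ)
  have hnum : ∀ e, (num e : ℕ) < M := fun e => (num e).2
  have hdiv : ∀ e, o e / M = fb e := by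
    intro e
    have hMpos : 0 < M := lt_of_le_of_lt (Nat.zero_le _) (hnum e)
    simp only [o]
    rw [Nat.mul_comm, Nat.mul_add_div hMpos, Nat.div_eq_of_lt (hnum e), add_zero]
  have hmod : ∀ e, o e % M = (num e : ℕ) := by
    intro e
    simp only [o]
    rw [Nat.mul_comm, Nat.mul_add_mod, Nat.mod_eq_of_lt (hnum e)]
  have ho : Function.Injective o := by
    intro e e' h
    apply num.injective
    apply Fin.ext
    rw [← hmod e, ← hmod e', h]
  have hmono : ∀ e e', o e ≤ o e' → fb e ≤ fb e' := by
    intro e e' h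
    rw [← hdiv e, ← hdiv e']
    exact Nat.div_le_div_right h
  refine basisNumber_le_of_order G o ho _ ?_
  intro e he
  obtain ⟨hlt, hbag⟩ := hfb e he
  refine ⟨D.bag ⟨fb e, hlt⟩, hD _, ?_, ?_⟩
  · induction e using Sym2.ind with
    | _ u v => exact ⟨u, hbag u (by simp)⟩
  · rintro v ⟨w, hw, hwo⟩ ⟨w', hw', hwo'⟩
    obtain ⟨h1, h1b⟩ := hfb s(v, w) (by simpa using hw)
    obtain ⟨h2, h2b⟩ := hfb s(v, w') (by simpa using hw')
    exact D.conv v ⟨_, h1⟩ ⟨_, hlt⟩ ⟨_, h2⟩ (hmono _ _ hwo.le) (hmono _ _ hwo')
      (h1b v (by simp)) (h2b v (by simp))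

end Pool.MP_35885f.CS
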